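import Mathlib
import Pool.Agent.TH890.DV.C2

/-!
The Moebius function at the values of the nine polynomials `n^2+tn+c` of class number one: both values
`1`, `-1` for at least `X / (log X)^(log 2 + ε)` of the integers `n ≤ X` in a residue class, at almost
all scales.

The starting file `MoebiusAlmostAllScales` of this problem has `X / (log X)^(2 log 2 + ε)`. The
equidistribution over pairs `(d, d')`, `d d' = n^2+tn+c`, is from the starting library
(`Pool.Agent.W78.EGQ.sqf9`); the passage from pairs to integers with the exponent `log 2 + ε` is new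
(`Pool/Agent/TH890/DV`).
-/

set_option autoImplicit false

namespace Pool.Agent.Results.MP_892e4c_nt.MoebiusLogTwo

open Finset Filter ArithmeticFunction

open scoped Classical in
/-- the set of the positive integers `X` with `P X` has logarithmic density `0` -/
def LogNull (P : ℕ → Prop) : Prop :=
  Tendsto (fun Z : ℕ => (∑ X ∈ (Icc 1 Z).filter P, 1 / (X : ℝ)) / Real.log Z) atTop (nhds 0)

/-- the number of the integers `0 ≤ n ≤ X`, `n ≡ a mod q`, with `μ(n^2+tn+c) = e` -/
def count (t c q a : ℕ) (e : ℤ) (X : ℕ) : ℕ :=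
  ((range (X + 1)).filter (fun n : ℕ => n ≡ a [MOD q] ∧ moebius (n ^ 2 + t * n + c) = e)).card

/-- the nine pairs `(t, c)` with `t` in `{0, 1}` and `x^2+tx+c` of discriminant `-4`, `-8`, `-3`,
`-7`, `-11`, `-19`, `-43`, `-67`, `-163` -/
def nine : List (ℕ × ℕ) :=
  [(0, 1), (0, 2), (1, 1), (1, 2), (1, 3), (1, 5), (1, 11), (1, 17), (1, 41)]

/-- Let `(t, c)` be one of the nine pairs, `F(n) = n^2+tn+c`, and let `a` be a residue class modulo
`q ≥ 1` such that `l^2 ∤ F(a)` for all primes `l` with `l^2 ∣ q`. For each sign `e`, every `ε > 0` and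
almost all `X`, at least `X / (log X)^(log 2 + ε)` of the integers `0 ≤ n ≤ X`, `n ≡ a mod q`, have
`μ(F(n)) = e`. -/
theorem result (t c : ℕ) (htc : (t, c) ∈ nine) (q : ℕ) (hq : 1 ≤ q) (a : ℕ)
    (hqa : ∀ l : ℕ, l.Prime → l ^ 2 ∣ q → ¬ l ^ 2 ∣ a ^ 2 + t * a + c) (e : ℤ)
    (he : e = 1 ∨ e = -1) (ε : ℝ) (hε : 0 < ε) :
    LogNull (fun X => (count t c q a e X : ℝ) < X / Real.log X ^ (Real.log 2 + ε)) := by
  classical
  have hc1 : 1 ≤ c := by
    unfold nine at htc
    simp only [List.mem_cons, Prod.mk.injEq, List.not_mem_nil, or_false] at htc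
    omega
  obtain ⟨j, hj⟩ : ∃ j : ℕ, e = (-1) ^ j := by
    rcases he with rfl | rfl
    · exact ⟨0, by norm_num⟩
    · exact ⟨1, by norm_num⟩
  have h := (Pool.Agent.TH890.DV.sqf9L (t := t) (c := c) (A := 1) (β := 0) (e := c)
    ⟨le_rfl, by norm_num, hc1, by ring, squarefree_one, fun m => Nat.coprime_one_left _⟩
    htc (k := 2) (by norm_num) hq a (fun m => m ^ 2 + t * m + c)
    (fun m => by unfold Pool.Agent.W78.EGQ.fq; ring) hqa).2.2.1 j ε hε
  refine Pool.Agent.TH890.DV.LogNull.of_ev 0 ?_ h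
  intro X _ hX
  have h1 : Pool.Agent.W78.EGQ.cE (fun m => m ^ 2 + t * m + c) q a 2 j X ≤ count t c q a e X := by
    unfold Pool.Agent.W78.EGQ.cE count
    refine card_le_card fun n hn => ?_
    rw [mem_filter] at hn ⊢
    obtain ⟨h2, h3, h4, h5⟩ := hn
    refine ⟨h2, h3, ?_⟩
    rw [moebius_apply_of_squarefree h4, hj]
    exact (neg_one_pow_congr (by
      rw [Nat.even_iff, Nat.even_iff]
      unfold Nat.ModEq at h5
      rw [h5])).trans rfl
  have h2 : (Pool.Agent.W78.EGQ.cE (fun m => m ^ 2 + t * m + c) q a 2 j X : ℝ) ≤ count t c q a e X := by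
    exact_mod_cast h1
  exact lt_of_le_of_lt h2 hX

end Pool.Agent.Results.MP_892e4c_nt.MoebiusLogTwo
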